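import Pool.Agent.N682.MS.Bas

/-!
# Project MS, part FIN (helper281): stability of the group `G`
-/

set_option autoImplicit false

namespace Pool.Agent.N281.MS

open Matrix Filter Topology
open Pool.Agent.W661.RC (Mt hs)
open Pool.Agent.W683.RC
open Pool.Agent.N682.MS

noncomputable section

theorem opn_zero {d : ℕ} : opn (0 : Mt d) = 0 := by
  unfold opn
  rw [map_zero, norm_zero]

section quot

variable {I : Type} (F : Filter I) (d : I → ℕ)

/-- the sequences of unitary matrices -/
abbrev PU : Type := ∀ i, Matrix.unitaryGroup (Fin (d i)) ℂ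

/-- the sequences which tend to one -/
def NN : Subgroup (PU d) where
  carrier := {V | Tendsto (fun i => opn ((V i).val - 1)) F (𝓝 0)}
  mul_mem' := by
    intro V W hV hW
    change Tendsto (fun i => opn ((V i).val - 1)) F (𝓝 0) at hV
    change Tendsto (fun i => opn ((W i).val - 1)) F (𝓝 0) at hW
    change Tendsto (fun i => opn ((V i).val * (W i).val - 1)) F (𝓝 0)
    have h1 := hW.add hV
    rw [add_zero] at h1
    refine squeeze_zero (fun i => opn_nonneg _) (fun i => ?_) h1
    have e1 : (V i).val * (W i).val - 1 = (V i).val * ((W i).val - 1) + ((V i).val - 1) := by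
      noncomm_ring
    rw [e1]
    exact (opn_add_le _ _).trans (add_le_add (opn_un_mul _ _) le_rfl)
  one_mem' := by
    change Tendsto (fun i => opn ((1 : Mt (d i)) - 1)) F (𝓝 0)
    refine tendsto_const_nhds.congr fun i => ?_
    rw [sub_self, opn_zero]
  inv_mem' := by
    intro V hV
    change Tendsto (fun i => opn ((V i).val - 1)) F (𝓝 0) at hV
    change Tendsto (fun i => opn ((V i)⁻¹.val - 1)) F (𝓝 0)
    refine squeeze_zero (fun i => opn_nonneg _) (fun i => ?_) hV
    have e1 : (V i)⁻¹.val - 1 = (V i)⁻¹.val * (1 - (V i).val) := by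
      rw [Matrix.mul_sub, un_inv_mul, Matrix.mul_one]
    rw [e1, opn_sub_comm (V i).val 1]
    exact opn_un_mul _ _

theorem mem_NN (V : PU d) : V ∈ NN F d ↔ Tendsto (fun i => opn ((V i).val - 1)) F (𝓝 0) := Iff.rfl

instance : (NN F d).Normal where
  conj_mem := by
    intro V hV g
    rw [mem_NN] at hV ⊢
    refine squeeze_zero (fun i => opn_nonneg _) (fun i => ?_) hV
    have e0 : ((g * V * g⁻¹) i).val = (g i).val * (V i).val * (g i)⁻¹.val := rfl
    have e1 : ((g * V * g⁻¹) i).val - 1 = (g i).val * (((V i).val - 1) * (g i)⁻¹.val) := by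
      rw [e0, Matrix.sub_mul, Matrix.one_mul, Matrix.mul_sub, un_mul_inv, Matrix.mul_assoc]
    rw [e1]
    exact (opn_un_mul _ _).trans (opn_mul_un _ _)

theorem mk_eq (V W : PU d) : (QuotientGroup.mk V : PU d ⧸ NN F d) = QuotientGroup.mk W ↔
    Tendsto (fun i => opn ((V i).val - (W i).val)) F (𝓝 0) := by
  rw [QuotientGroup.eq, mem_NN]
  have e0 : ∀ i, ((V⁻¹ * W) i).val = (V i)⁻¹.val * (W i).val := fun i => rfl
  constructor
  · intro h
    refine squeeze_zero (fun i => opn_nonneg _) (fun i => ?_) h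
    have e1 : (W i).val - (V i).val = (V i).val * (((V⁻¹ * W) i).val - 1) := by
      rw [e0, Matrix.mul_sub, ← Matrix.mul_assoc, un_mul_inv, Matrix.one_mul, Matrix.mul_one]
    rw [opn_sub_comm, e1]
    exact opn_un_mul _ _
  · intro h
    refine squeeze_zero (fun i => opn_nonneg _) (fun i => ?_) h
    have e1 : ((V⁻¹ * W) i).val - 1 = (V i)⁻¹.val * ((W i).val - (V i).val) := by
      rw [e0, Matrix.mul_sub, un_inv_mul]
    rw [opn_sub_comm (V i).val, e1]
    exact opn_un_mul _ _

variable {F d}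

/-- an asymptotic homomorphism gives a homomorphism -/
def hom {G : Type} [Group G] {φ : ∀ i, G → Matrix.unitaryGroup (Fin (d i)) ℂ} (h : AsF F d φ) :
    G →* PU d ⧸ NN F d :=
  MonoidHom.mk' (fun g => QuotientGroup.mk (fun i => φ i g)) (by
    intro g k
    rw [← QuotientGroup.mk_mul, mk_eq]
    exact h g k)

theorem hom_apply {G : Type} [Group G] {φ : ∀ i, G → Matrix.unitaryGroup (Fin (d i)) ℂ}
    (h : AsF F d φ) (g : G) : hom h g = QuotientGroup.mk (fun i => φ i g) := rfl

end quot

theorem hsn_eq {d : ℕ} (a : Mt d) : hsn a = hs a / d := by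
  unfold hsn
  rw [← hs_eq]

theorem hsn_nonneg {d : ℕ} (a : Mt d) : 0 ≤ hsn a := by
  rw [hsn_eq]
  exact div_nonneg (hs_nonneg _) (Nat.cast_nonneg _)

theorem hsn_le {d : ℕ} (a : Mt d) : hsn a ≤ opn a ^ 2 := by
  rw [hsn_eq]
  rcases Nat.eq_zero_or_pos d with hd | hd
  · subst hd
    simp only [Nat.cast_zero, div_zero]
    positivity
  · have hd' : (0 : ℝ) < d := by exact_mod_cast hd
    rw [div_le_iff₀ hd']
    have h1 := hs_opn a 1
    rw [Matrix.mul_one] at h1
    have h2 : hs (1 : Mt d) = d := by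
      rw [hs_eq_tr, Matrix.conjTranspose_one, Matrix.one_mul, tr_one]
    rwa [h2] at h1

theorem hsn_add_le {d : ℕ} (a b : Mt d) : hsn (a + b) ≤ 2 * hsn a + 2 * hsn b := by
  rw [hsn_eq, hsn_eq, hsn_eq]
  have h := hs_add_le a b
  have h1 : hs (a + b) / d ≤ (2 * hs a + 2 * hs b) / d :=
    div_le_div_of_nonneg_right h (Nat.cast_nonneg d)
  rw [add_div, mul_div_assoc, mul_div_assoc] at h1
  exact h1

theorem t_fin : S_FIN := by
  intro hR Γ G _ _ hT Φ l x0 ι t e h1 h2 h3 het heι hker
  constructor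
  · intro k φ hφ
    have hF : AsF atTop k φ := hφ
    have hι := hR Γ G hT Φ l x0 ι t h1 h2 h3 k φ hφ
    let Ψ := hom hF
    have hΨι : ∀ x, Ψ (ι x) = 1 := by
      intro x
      have e1 : (1 : PU k ⧸ NN atTop k) = QuotientGroup.mk (1 : PU k) := rfl
      show (QuotientGroup.mk (fun i => φ i (ι x)) : PU k ⧸ NN atTop k) = 1
      rw [e1, mk_eq]
      exact hι x
    have hΨ : ∀ g, e g = 1 → Ψ g = 1 := by
      intro g hg
      have h4 : Subgroup.normalClosure (Set.range ι) ≤ Ψ.ker := by
        apply Subgroup.normalClosure_le_normal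
        rintro _ ⟨x, rfl⟩
        exact hΨι x
      exact h4 (hker g hg)
    let ρ : ∀ n, G →* Matrix.unitaryGroup (Fin (k n)) ℂ := fun n => (zpowersHom _ (φ n t)).comp e
    refine ⟨ρ, fun g => ?_⟩
    set m : ℤ := Multiplicative.toAdd (e g) with hm
    have h5 : e (g * (t ^ m)⁻¹) = 1 := by
      rw [map_mul, map_inv, map_zpow, het]
      have : (Multiplicative.ofAdd (1:ℤ)) ^ m = e g := by
        rw [← ofAdd_zsmul, smul_eq_mul, mul_one, hm]
        rfl
      rw [this, mul_inv_cancel]
    have h6 := hΨ _ h5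
    rw [map_mul, map_inv, mul_inv_eq_one, map_zpow] at h6
    have h7 : (QuotientGroup.mk (fun i => φ i g) : PU k ⧸ NN atTop k) =
        QuotientGroup.mk ((fun i => φ i t : PU k) ^ m) := h6
    rw [mk_eq] at h7
    exact h7
  · rintro k ψ x hx ⟨ρ, hρ⟩
    apply hx
    have hA : AsO (fun n g => ρ n g) := by
      intro g h
      refine tendsto_const_nhds.congr fun n => ?_
      have e1 : ρ n (g * h) = ρ n g * ρ n h := map_mul _ _ _
      show (0:ℝ) = opn ((ρ n (g * h)).val - (ρ n g).val * (ρ n h).val)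
      rw [e1]
      show (0:ℝ) = opn ((ρ n g).val * (ρ n h).val - (ρ n g).val * (ρ n h).val)
      rw [sub_self, opn_zero]
    have h4 := hR Γ G hT Φ l x0 ι t h1 h2 h3 k (fun n g => ρ n g) hA x
    have h5 : Tendsto (fun n => 2 * hsn ((ψ n (ι x)).val - (ρ n (ι x)).val) +
        2 * opn ((ρ n (ι x)).val - 1) ^ 2) atTop (𝓝 0) := by
      have := ((hρ (ι x)).const_mul 2).add ((h4.pow 2).const_mul 2)
      simpa using this
    refine squeeze_zero (fun n => hsn_nonneg _) (fun n => ?_) h5
    have e1 : (ψ n (ι x)).val - 1 = ((ψ n (ι x)).val - (ρ n (ι x)).val) +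
        ((ρ n (ι x)).val - 1) := by abel
    rw [e1]
    refine (hsn_add_le _ _).trans ?_
    have := hsn_le ((ρ n (ι x)).val - 1)
    linarith

end

end Pool.Agent.N281.MS
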